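import Mathlib
import Pool.Agent.N890.MH.Final

/-!
# MP_216eb3_nt, Q1: the height of the image in a geometric quotient is comparable with the minimal
height in the orbit

Let `X` and `Y` be quasi-projective sets of points of projective spaces over the field of algebraic
numbers, let a group `G` act on `X`, and let `π : X → Y` be a morphism whose fibres are exactly the
orbits of `G`; this is the case if `G` is an algebraic group with an algebraic action and `π` is a
geometric quotient. Let `h_X` and `h_Y` be ample heights on `X` and `Y`. Then

  `h_Y(π(x)) ≍ inf_{g ∈ G} h_X(g x)`   for `x` in `X`.

Here an ample height is a positive multiple of the pullback of the absolute logarithmic Weil height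
under a projective embedding, up to a bounded function.

Proof. The inequality `h_Y(π(x)) ≤ C (1 + h_X(x))` is clear, since `π` is given by finitely many
tuples of forms. For the other one the coordinates of a point of the fibre over `y` are chosen one
after the other: the set of the possible values of the next coordinate, given the previous ones and
`y`, is constructible and is given by polynomials which do not depend on `y` (Chevalley's theorem),
so it either contains a small integer, or all its elements are zeros of a nonzero polynomial whose
coefficients are values of fixed polynomials at `y` and the previous coordinates, and then their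
heights are bounded in terms of the height of `y`.
-/

set_option autoImplicit false

namespace Pool.Agent.Results.MP_216eb3_nt.QuotientHeights

open Pool.Agent.N890.MH

/-- **The height on a quotient and the minimal height in the orbits.** -/
theorem result {n m : ℕ} (X : Set (PSp (Fin (n + 1)))) (Y : Set (PSp (Fin (m + 1))))
    (hX : IsQuasiProjective X) (_hY : IsQuasiProjective Y)
    (G : Type*) [Group G] [MulAction G X]
    (π : X → Y) (hπ : IsMorphism X (fun P => (π P : PSp (Fin (m + 1)))))
    (horb : ∀ P Q : X, π P = π Q ↔ ∃ g : G, g • P = Q)
    (h_X : X → ℝ) (h_Y : Y → ℝ) (h₁ : IsAmpleHeight X h_X) (h₂ : IsAmpleHeight Y h_Y) :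
    Comparable (fun P : X => h_Y (π P)) (fun P : X => ⨅ g : G, h_X (g • P)) :=
  comparable (cons_cone hX) π hπ (fun (g : G) (P : X) => g • P) horb h₁.bounds h₂.bounds

end Pool.Agent.Results.MP_216eb3_nt.QuotientHeights
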