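import Mathlib
import Pool.Agent.N890.MH.Final
import Pool.Agent.N890.MH.RatCons

/-!
# MP_216eb3_nt, Q2: moduli heights of rational maps and minimal heights in conjugacy classes

`Rat d` is the space of the rational maps of degree `d` of the projective line over the field of
algebraic numbers, in the projective space of dimension `2 d + 1` of coefficient vectors; the height
of a map is the height of this point. Let `i : Rat_d → P^M` be a morphism whose fibres are exactly
the conjugacy classes, for instance the composition of the quotient map `Rat_d → M_d` and an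
embedding of the moduli space `M_d` in `P^M`. Then

  `h(i(f)) ≍ inf_φ h(φ⁻¹ ∘ f ∘ φ)`   for `f` in `Rat_d`,

where `φ` runs over `GL_2` of the field of algebraic numbers.
-/

set_option autoImplicit false

namespace Pool.Agent.Results.MP_216eb3_nt.RationalMaps

open Pool.Agent.N890.MH Pool.Agent.Helper259.AbsHt

/-- **The moduli height of a rational map is comparable with the minimal height of its
conjugates.** -/
theorem result (d M : ℕ) (i : Rat d → PSp (Fin (M + 1))) (hi : IsMorphism (Rat d) i)
    (hfib : ∀ f g : Rat d, i f = i g ↔ ∃ φ : GL (Fin 2) Qbar, conj φ f = g) :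
    Comparable (fun f : Rat d => ht (i f))
      (fun f : Rat d => ⨅ φ : GL (Fin 2) Qbar, ht (conj φ f : PSp (Fin 2 × Fin (d + 1)))) := by
  refine comparable (Y := Set.univ) (cons_cone_Rat d) (fun f => ⟨i f, trivial⟩) hi
    (fun (φ : GL (Fin 2) Qbar) (f : Rat d) => conj φ f) (fun f g => ?_)
    (hX' := fun f => ht (f : PSp (Fin 2 × Fin (d + 1)))) (hY' := fun P => ht P.1)
    ⟨1, 0, 1, 0, one_pos, one_pos, fun P => by simp, fun P => by simp⟩
    ⟨1, 0, 1, 0, one_pos, one_pos, fun P => by simp, fun P => by simp⟩
  rw [← hfib, Subtype.mk.injEq]

end Pool.Agent.Results.MP_216eb3_nt.RationalMaps
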